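import Pool.Agent.Helper46.NU.Goals1

/-!
# Flipping bits of a generic coordinate which sees nothing
-/

open MeasureTheory Filter Topology Set
open scoped ENNReal

noncomputable section

namespace NU.PkFLP

open Classical

variable (S : Sys) (ξ : S.C) (J : Finset ℕ) (x : ℕ → Bool)

/-- the flip of the points -/
def tau (z : Pt S) : Pt S := fun c m => if c = ξ ∧ m ∈ J then xor (z c m) (x m) else z c m

theorem tau_tau (z : Pt S) : tau S ξ J x (tau S ξ J x z) = z := by
  funext c m
  unfold tau
  by_cases h : c = ξ ∧ m ∈ J
  · simp only [if_pos h, Bool.xor_assoc, Bool.xor_self, Bool.xor_false]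
  · simp only [if_neg h]

/-- flipping the value -/
def fOut (b : CF S) (e : Bool) : CF S :=
  ⟨fun z => xor (b.1 z) e, by
    obtain ⟨F, hF⟩ := b.2
    exact ⟨F, fun z z' h => by simp only [hF z z' h]⟩⟩

/-- flipping the argument -/
def fIn (b : CF S) : CF S :=
  ⟨fun z => b.1 (tau S ξ J x z), by
    obtain ⟨F, hF⟩ := b.2
    refine ⟨F, fun z z' h => hF _ _ fun p hp => ?_⟩
    simp only [tau, h p hp]⟩

/-- the map at one coordinate -/
def hh (p : S.C × ℕ) (b : CF S) : CF S :=
  if p.1 = ξ then (if p.2 ∈ J then fOut S b (x p.2) else b)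
  else if S.see p.1 ξ then fIn S ξ J x b else b

theorem fOut_fOut (b : CF S) (e : Bool) : fOut S (fOut S b e) e = b := by
  apply Subtype.ext
  funext z
  simp [fOut]

theorem fIn_fIn (b : CF S) : fIn S ξ J x (fIn S ξ J x b) = b := by
  apply Subtype.ext
  funext z
  simp only [fIn, tau_tau]

theorem hh_hh (p : S.C × ℕ) (b : CF S) : hh S ξ J x p (hh S ξ J x p b) = b := by
  unfold hh
  by_cases h1 : p.1 = ξ
  · by_cases h2 : p.2 ∈ J
    · simp only [if_pos h1, if_pos h2, fOut_fOut]
    · simp only [if_pos h1, if_neg h2]
  · by_cases h2 : S.see p.1 ξ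
    · simp only [if_neg h1, if_pos h2, fIn_fIn]
    · simp only [if_neg h1, if_neg h2]

/-- the homeomorphism -/
def Th : Ph S ≃ₜ Ph S where
  toFun φ := fun p => hh S ξ J x p (φ p)
  invFun φ := fun p => hh S ξ J x p (φ p)
  left_inv φ := by funext p; exact hh_hh S ξ J x p (φ p)
  right_inv φ := by funext p; exact hh_hh S ξ J x p (φ p)
  continuous_toFun := by
    refine continuous_pi fun p => ?_
    exact (continuous_of_discreteTopology (f := hh S ξ J x p)).comp (continuous_apply p)
  continuous_invFun := by
    refine continuous_pi fun p => ?_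
    exact (continuous_of_discreteTopology (f := hh S ξ J x p)).comp (continuous_apply p)

theorem Th_apply (φ : Ph S) (p : S.C × ℕ) : Th S ξ J x φ p = hh S ξ J x p (φ p) := rfl

/-! ### the samples -/

/-- flip of a binary sequence -/
def f1 (r : ℕ → Bool) : ℕ → Bool := fun m => (if m ∈ J then (fun e => xor e (x m)) else id) (r m)

theorem f1_f1 (r : ℕ → Bool) : f1 J x (f1 J x r) = r := by
  funext m
  unfold f1
  by_cases h : m ∈ J
  · simp [if_pos h]
  · simp [if_neg h]

theorem bern_xor (e : Bool) : Measure.map (fun a => xor a e) bern = bern := by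
  have hm : Measurable (fun a : Bool => xor a e) := measurable_of_finite _
  unfold bern
  rw [Measure.map_add _ _ hm, Measure.map_smul, Measure.map_smul, Measure.map_dirac' hm,
    Measure.map_dirac' hm]
  cases e
  · simp
  · simp only [Bool.xor_true, Bool.not_true, Bool.not_false]
    rw [add_comm]

theorem f1_meas : Measurable (f1 J x) := by
  refine measurable_pi_iff.2 fun m => ?_
  exact (measurable_of_finite _).comp (measurable_pi_apply m)

theorem map_f1 : Measure.map (f1 J x) coin = coin := by
  unfold coin
  have h := Measure.infinitePi_map_pi (μ := fun _ : ℕ => bern)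
    (f := fun m : ℕ => (if m ∈ J then (fun e => xor e (x m)) else id : Bool → Bool))
    (fun m => measurable_of_finite _)
  have h2 : (fun m : ℕ => Measure.map (if m ∈ J then (fun e => xor e (x m)) else id : Bool → Bool) bern)
      = fun _ => bern := by
    funext m
    by_cases hm : m ∈ J
    · rw [if_pos hm, bern_xor]
    · rw [if_neg hm, Measure.map_id]
  rw [h2] at h
  exact h

/-- flip of the sample at one coordinate -/
def f2 (c : S.C) (s : ℕ × (ℕ → Bool)) : ℕ × (ℕ → Bool) := if c = ξ then (s.1, f1 J x s.2) else s

theorem f2_f2 (c : S.C) (s : ℕ × (ℕ → Bool)) : f2 S ξ J x c (f2 S ξ J x c s) = s := by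
  unfold f2
  by_cases h : c = ξ
  · simp only [if_pos h, f1_f1]
  · simp only [if_neg h]

theorem f2_meas (c : S.C) : Measurable (f2 S ξ J x c) := by
  unfold f2
  by_cases h : c = ξ
  · simp only [if_pos h]
    exact measurable_fst.prodMk ((f1_meas J x).comp measurable_snd)
  · simp only [if_neg h]
    exact measurable_id

theorem map_f2 (c : S.C) : Measure.map (f2 S ξ J x c) rho = rho := by
  unfold f2
  by_cases h : c = ξ
  · simp only [if_pos h]
    have h1 : MeasurePreserving (id : ℕ → ℕ) geo geo := MeasurePreserving.id _
    have h2 : MeasurePreserving (f1 J x) coin coin := ⟨f1_meas J x, map_f1 J x⟩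
    exact (h1.prod h2).map_eq
  · simp only [if_neg h]
    exact Measure.map_id

/-- the flip of the samples -/
def sig : Om S ≃ᵐ Om S where
  toFun ω := fun c => f2 S ξ J x c (ω c)
  invFun ω := fun c => f2 S ξ J x c (ω c)
  left_inv ω := by funext c; exact f2_f2 S ξ J x c (ω c)
  right_inv ω := by funext c; exact f2_f2 S ξ J x c (ω c)
  measurable_toFun := measurable_pi_iff.2 fun c => (f2_meas S ξ J x c).comp (measurable_pi_apply c)
  measurable_invFun := measurable_pi_iff.2 fun c => (f2_meas S ξ J x c).comp (measurable_pi_apply c)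

theorem sig_apply (ω : Om S) (c : S.C) : sig S ξ J x ω c = f2 S ξ J x c (ω c) := rfl

theorem sig_mp : MeasurePreserving (sig S ξ J x) (PP S) (PP S) := by
  refine ⟨(sig S ξ J x).measurable, ?_⟩
  unfold PP
  have h := Measure.infinitePi_map_pi (μ := fun _ : S.C => rho)
    (f := fun c : S.C => f2 S ξ J x c) (fun c => f2_meas S ξ J x c)
  have h2 : (fun c : S.C => Measure.map (f2 S ξ J x c) rho) = fun _ => rho := by
    funext c
    exact map_f2 S ξ J x c
  rw [h2] at h
  exact h

/-! ### the main claim -/

theorem claim (hξ : ∀ c, ¬ S.see ξ c) (φ : Ph S) (ω : Om S) :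
    zz S (Th S ξ J x φ) (sig S ξ J x ω) = tau S ξ J x (zz S φ ω) := by
  funext c
  induction c using S.wf.induction with
  | _ c ih =>
    have hmask : mask S c (zz S (Th S ξ J x φ) (sig S ξ J x ω)) = mask S c (tau S ξ J x (zz S φ ω)) := by
      funext c' m
      unfold mask
      by_cases h : S.see c c'
      · rw [if_pos h, if_pos h, ih c' h]
      · rw [if_neg h, if_neg h]
    funext n
    rw [zz_eq, hmask, sig_apply, Th_apply]
    by_cases hc : c = ξ
    · subst hc
      have hm : ∀ z : Pt S, mask S c z = fun _ _ => false := by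
        intro z
        funext c' m
        unfold mask
        rw [if_neg (hξ c')]
      rw [hm]
      have e1 : tau S c J x (zz S φ ω) c n
          = if n ∈ J then xor (zz S φ ω c n) (x n) else zz S φ ω c n := by
        unfold tau
        by_cases hn : n ∈ J
        · rw [if_pos ⟨rfl, hn⟩, if_pos hn]
        · rw [if_neg (fun h => hn h.2), if_neg hn]
      rw [e1, zz_eq, hm]
      simp only [f2, hh, if_true]
      by_cases hcond : n < (ω c).1 ∨ ¬ S.gen c
      · rw [if_pos hcond, if_pos hcond]
        unfold f1
        by_cases hn : n ∈ J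
        · simp only [if_pos hn]
        · simp only [if_neg hn, id]
      · rw [if_neg hcond, if_neg hcond]
        by_cases hn : n ∈ J
        · simp only [if_pos hn, fOut]
        · simp only [if_neg hn]
    · have e1 : tau S ξ J x (zz S φ ω) c n = zz S φ ω c n := by
        unfold tau
        rw [if_neg (fun h => hc h.1)]
      rw [e1, zz_eq]
      simp only [f2, hh, if_neg hc]
      by_cases hcond : n < (ω c).1 ∨ ¬ S.gen c
      · rw [if_pos hcond, if_pos hcond]
      · rw [if_neg hcond, if_neg hcond]
        by_cases hs : S.see c ξ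
        · rw [if_pos hs]
          have e2 : tau S ξ J x (mask S c (tau S ξ J x (zz S φ ω))) = mask S c (zz S φ ω) := by
            funext c' m
            unfold mask tau
            by_cases h : c' = ξ ∧ m ∈ J
            · have hs' : S.see c c' := h.1 ▸ hs
              simp only [if_pos h, if_pos hs', Bool.xor_assoc, Bool.xor_self, Bool.xor_false]
            · simp only [if_neg h]
          simp only [fIn, e2]
        · rw [if_neg hs]
          have e2 : mask S c (tau S ξ J x (zz S φ ω)) = mask S c (zz S φ ω) := by
            funext c' m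
            unfold mask tau
            by_cases h : S.see c c'
            · have h' : ¬ (c' = ξ ∧ m ∈ J) := fun h' => hs (h'.1 ▸ h)
              simp only [if_pos h, if_neg h']
            · simp only [if_neg h]
          rw [e2]

theorem flp : G_FLP := by
  intro S ξ _ hξ J x
  refine ⟨Th S ξ J x, ?_, ?_, ?_, ?_⟩
  · intro φ K _ hK
    unfold pr
    rw [← (sig_mp S ξ J x).measure_preimage_equiv]
    congr 1
    ext ω
    simp only [mem_preimage, Set.mem_ofPred_eq]
    rw [claim S ξ J x hξ φ ω]
    refine hK _ _ fun c hc => ?_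
    funext m
    unfold tau
    rw [if_neg (fun h => hc h.1)]
  · intro φ m hm z
    rw [Th_apply]
    simp only [hh, if_true, if_pos hm, fOut]
  · intro φ m hm
    rw [Th_apply]
    simp only [hh, if_true, if_neg hm]
  · intro φ c m hc h
    rw [Th_apply]
    simp only [hh, if_neg hc]
    by_cases hs : S.see c ξ
    · rw [if_pos hs]
      apply Subtype.ext
      funext z
      simp only [fIn]
      refine h _ _ fun c' m' h' => ?_
      unfold tau
      rw [if_neg h']
    · rw [if_neg hs]

end NU.PkFLP
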