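import Pool.Agent.Helper46.NU.Names

/-!
# A set of reals which injects into an indexed family is covered by an indexed family of reals
-/

noncomputable section

namespace NU.PkIN1

open Pool.Agent.Helper97.Ku

theorem in1 (in2 : G_IN2) (rea : G_REA) : G_IN1 := by
  intro S L _ e he ι x Y b hb1 hb2
  obtain ⟨M, c, hc, hcov⟩ := in2 L ι x Y b hb2
  choose w hw hwM using fun i => (rea S L e he).2.2.1 (M i)
  refine ⟨w, hw, fun y => (hcov y).trans (iSup_mono fun i => ?_)⟩
  have h0 : b ⊓ (M i).mem Y ≤ subV (M i) omN := by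
    rw [← le_himp_iff]
    exact hb1.trans (iInf_le _ (M i))
  have h1 : c i ≤ (M i).eq (rnN e (w i)) := ((hc i).trans h0).trans (hwM i)
  refine le_trans ?_ (BSet.eq_trans y (M i) _)
  exact le_inf inf_le_right (inf_le_left.trans h1)

end NU.PkIN1
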